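import Mathlib
import Pool.Agent.Helper74.FB.Dense

/-! # Clusters of prime values of `k ^ 2 + 3 k + 1 + N`, with arguments from an arbitrary dense set of primes

`g i`, `i ∈ I`, are sufficiently many nonconstant integer polynomials (for instance `g i = x + i`, so that the
arguments `k = g i (p)` are consecutive integers after `p`). There is no condition of admissibility. For a positive
proportion of the `J`-tuples of numbers `N j ≤ X` there are `r` of the polynomials such that for many primes `p` of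
any given dense set of primes all the `J r` numbers `k ^ 2 + 3 k + 1 + N j`, `k = g i (p)`, are prime. -/

set_option autoImplicit false

namespace Pool.Agent.Results.MP_d57abb_nt.ClustersOfPrimeValues

open Finset Polynomial

/-- the polynomial of the problem -/
def f (k : ℤ) : ℤ := k ^ 2 + 3 * k + 1

/-- the integer `z` is a (positive) prime number -/
def IsPrime (z : ℤ) : Prop := ∃ q : ℕ, q.Prime ∧ (q : ℤ) = z

/-- the polynomials `g i`, `i ∈ I`, have degrees between `1` and `D`, and for different `i`, `i'` neither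
`g i = g i'` nor `g i + g i' = -3` (otherwise `f (g i (x)) = f (g i' (x))` identically) -/
def Arguments (I : Finset ℕ) (g : ℕ → ℤ[X]) (D : ℕ) : Prop :=
  (∀ i ∈ I, 1 ≤ (g i).natDegree ∧ (g i).natDegree ≤ D) ∧
    ∀ i ∈ I, ∀ i' ∈ I, i ≠ i' → g i ≠ g i' ∧ g i + g i' ≠ -3

open Classical in
/-- for `r` of the polynomials `g i` and at least `Y / (log X) ^ B` of the `p ∈ 𝒬` all the `J r` numbers
`f (g i (p)) + N j` are prime -/
def Many {J : ℕ} (I : Finset ℕ) (g : ℕ → ℤ[X]) (r B X Y : ℕ) (𝒬 : Finset ℕ) (N : Fin J → ℕ) : Prop :=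
  ∃ S ⊆ I, S.card = r ∧ (Y : ℝ) / Real.log X ^ B ≤
    (((𝒬.filter (fun p : ℕ => ∀ j, ∀ i ∈ S, IsPrime (f ((g i).eval (p : ℤ)) + N j))).card : ℕ) : ℝ)

/-- the values of `f` miss a class modulo every prime -/
theorem miss (p : ℕ) (hp : p.Prime) : ∃ w : ℤ, ∀ k : ℤ, ¬ (p : ℤ) ∣ w + f k := by
  have _inst := Fact.mk hp
  obtain ⟨F, hF⟩ : ∃ F : ZMod p → ZMod p, F = fun k => k ^ 2 + 3 * k + 1 := ⟨_, rfl⟩
  have hni : ¬ Function.Injective F := by
    intro hinj
    have h1 : F 0 = F (-3) := by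
      rw [hF]; ring
    have h2 : (0 : ZMod p) = -3 := hinj h1
    have h3 : (3 : ZMod p) = 0 := by
      rw [← neg_eq_zero, ← h2]
    have h4 : F 1 = F 2 := by
      rw [hF]
      have : (1 : ZMod p) ^ 2 + 3 * 1 + 1 = 2 ^ 2 + 3 * 2 + 1 := by
        rw [h3]
        linear_combination (-1 : ZMod p) * h3
      exact this
    have h5 : (1 : ZMod p) = 2 := hinj h4
    have h6 : (1 : ZMod p) = 0 := by
      have : (2 : ZMod p) - 1 = 1 := by ring
      rw [← this, ← h5, sub_self]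
    exact one_ne_zero h6
  have hns : ¬ Function.Surjective F := fun h => hni (Finite.injective_iff_surjective.2 h)
  have hex : ∃ y, ∀ x, F x ≠ y := by
    by_contra hcon
    push Not at hcon
    exact hns hcon
  obtain ⟨y, hy⟩ := hex
  refine ⟨-((y.val : ℕ) : ℤ), fun k hk => hy (k : ZMod p) ?_⟩
  have h1 := (ZMod.intCast_zmod_eq_zero_iff_dvd _ p).2 hk
  unfold f at h1
  push_cast at h1
  rw [ZMod.natCast_val, ZMod.cast_id', id] at h1
  rw [hF]
  linear_combination h1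

/-- the polynomial `f` -/
noncomputable def fP : ℤ[X] := X ^ 2 + C 3 * X + C 1

theorem fP_eval (k : ℤ) : fP.eval k = f k := by
  simp [fP, f]

theorem fP_deg : fP.natDegree = 2 := by
  have : fP = C 1 * X ^ 2 + C 3 * X + C 1 := by
    rw [fP, map_one, one_mul]
  rw [this]
  exact natDegree_quadratic one_ne_zero

theorem comp_inj {a b : ℤ[X]} (h : fP.comp a = fP.comp b) : a = b ∨ a + b = -3 := by
  have h1 : a ^ 2 + 3 * a + 1 = b ^ 2 + 3 * b + 1 := by
    have e : ∀ c : ℤ[X], fP.comp c = c ^ 2 + 3 * c + 1 := by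
      intro c
      simp [fP]
    rwa [e, e] at h
  have h2 : (a - b) * (a + b + 3) = 0 := by linear_combination h1
  rcases mul_eq_zero.1 h2 with h3 | h3
  · exact Or.inl (sub_eq_zero.1 h3)
  · exact Or.inr (by linear_combination h3)

open Classical in
/-- **Clusters of prime values of `k ^ 2 + 3 k + 1 + N`.** -/
theorem result (J r : ℕ) (hr : 1 ≤ r) : ∃ K B : ℕ, ∀ (I : Finset ℕ) (g : ℕ → ℤ[X]) (D : ℕ), K ≤ I.card →
    Arguments I g D → ∀ c : ℝ, 0 < c → ∃ κ : ℝ, 0 < κ ∧ ∃ X₀ : ℕ, ∀ X : ℕ, X₀ ≤ X → ∀ Y : ℕ,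
      Real.log X ^ B ≤ Y → (Y : ℝ) ^ (2 * D) ≤ κ * X →
      ∀ 𝒬 : Finset ℕ, (∀ p ∈ 𝒬, p.Prime ∧ p ≤ Y) → c * (Y / Real.log Y) ≤ 𝒬.card →
      κ * (X : ℝ) ^ J ≤
        (({N ∈ Fintype.piFinset (fun _ : Fin J => Icc 1 X) | Many I g r B X Y 𝒬 N}.card : ℕ) : ℝ) := by
  obtain ⟨K, B, h1⟩ := Pool.Agent.Helper74.FB.denseJ J r hr
  refine ⟨K + 1, B, fun I g D hI hadm c hc => ?_⟩
  obtain ⟨hdeg, hdist⟩ := hadm
  obtain ⟨A, hA⟩ : ∃ A : Fin J → ℕ → ℤ[X], A = fun _ i => fP.comp (g i) := ⟨_, rfl⟩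
  have hnd : ∀ j i, (A j i).natDegree = 2 * (g i).natDegree := by
    intro j i
    rw [hA]
    simp only
    rw [natDegree_comp, fP_deg]
  have hev : ∀ j i, ∀ x : ℤ, (A j i).eval x = f ((g i).eval x) := by
    intro j i x
    rw [hA]
    simp only
    rw [eval_comp, fP_eval]
  obtain ⟨κ, hκ, X₀, h2⟩ := h1 I (by omega) A (fun j i hi => by
      rw [hnd]
      have := (hdeg i hi).1
      omega) (by
      intro j i hi i' hi' heq
      by_contra hne
      rw [hA] at heq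
      rcases comp_inj heq with h3 | h3
      · exact (hdist i hi i' hi' hne).1 h3
      · exact (hdist i hi i' hi' hne).2 h3) (by
      intro p hp u _ j
      obtain ⟨w, hw⟩ := miss p hp
      exact ⟨w, fun i _ hd => hw ((g i).eval u) (by rwa [hev] at hd)⟩) c hc
  refine ⟨κ, hκ, X₀ + 3, fun X hX Y hY1 hY2 𝒬 h𝒬 hcard => ?_⟩
  have hlogX : 1 ≤ Real.log X := by
    have h3 : Real.exp 1 ≤ X := by
      have := Real.exp_one_lt_three
      have h4 : (3 : ℝ) ≤ X := by exact_mod_cast (by omega : 3 ≤ X)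
      linarith
    rw [← Real.log_exp 1]
    exact Real.log_le_log (Real.exp_pos 1) h3
  have hY0 : (1 : ℝ) ≤ Y := le_trans (one_le_pow₀ hlogX) hY1
  have hIne : I.Nonempty := by
    rw [← card_pos]
    omega
  obtain ⟨i₁, hi₁⟩ := hIne
  have hD1 : 1 ≤ D := le_trans (hdeg i₁ hi₁).1 (hdeg i₁ hi₁).2
  have hYκ : (Y : ℝ) ≤ κ * X := by
    refine le_trans ?_ hY2
    calc (Y : ℝ) = (Y : ℝ) ^ 1 := (pow_one _).symm
      _ ≤ (Y : ℝ) ^ (2 * D) := pow_le_pow_right₀ hY0 (by omega)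
  have hsub : 𝒬 ⊆ (Icc 1 Y).filter Nat.Prime := by
    intro p hp
    exact mem_filter.2 ⟨mem_Icc.2 ⟨(h𝒬 p hp).1.one_lt.le, (h𝒬 p hp).2⟩, (h𝒬 p hp).1⟩
  refine (h2 X (by omega) Y hY1 hYκ (fun j i hi => by
    rw [hnd]
    refine le_trans (pow_le_pow_right₀ hY0 ?_) hY2
    have := (hdeg i hi).2
    omega) 𝒬 hsub hcard).trans ?_
  rw [Nat.cast_le]
  apply card_le_card
  intro N hN
  obtain ⟨hN1, hN2, S, hS, hSc, hcl⟩ := mem_filter.1 hN
  refine mem_filter.2 ⟨hN1, S, hS, hSc, hcl.trans ?_⟩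
  rw [Nat.cast_le]
  apply card_le_card
  intro p hp
  obtain ⟨hp1, hp2⟩ := mem_filter.1 hp
  refine mem_filter.2 ⟨hp1, fun j i hi => ?_⟩
  obtain ⟨q, hq, hq2⟩ := hp2 j i hi
  refine ⟨q, hq, ?_⟩
  rw [hq2, hev]
  ring

end Pool.Agent.Results.MP_d57abb_nt.ClustersOfPrimeValues
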