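import Mathlib
import Pool.Agent.Helper74.FB.DenseTQ

/-! # Primes `k ^ 2 + 3 k + c` with almost prime companions, `k` in sparse progressions, for several constants `c`

`f i`, `i ∈ I`, are sufficiently many integer polynomials, one of them `x ^ 2 + 3 x`, and `s j + q j * m`, `j < J`, are
progressions with arbitrary starts `s j` and differences `q j ≤ G φ(q j)`. `𝒬 ⊆ [1, Y]` is any set of at least `d Y`
integers. For a positive proportion of the `J`-tuples of constants `c j ≤ M` there are many `m ∈ 𝒬` such that, with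
`k = s j + q j * m`, all the `k ^ 2 + 3 k + c j` are primes and for `r` of the other polynomials all the
`f i (k) + c j` have at most two prime factors. -/

set_option autoImplicit false

namespace Pool.Agent.Results.MP_d57abb_nt.PrimeValuesInDenseSets

open Finset Polynomial

/-- the integer `z` is `> 1` and has at most two prime factors, counted with multiplicity -/
def AlmostPrime (z : ℤ) : Prop := ∃ q : ℕ, 1 < q ∧ (q : ℤ) = z ∧ q.primeFactorsList.length ≤ 2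

/-- the polynomials `f i`, `i ∈ I`, are distinct, of degrees between `1` and `D`, and for every prime `p` and every
integer `u` the values `f i (u)` miss a class modulo `p` -/
def Admissible (I : Finset ℕ) (f : ℕ → ℤ[X]) (D : ℕ) : Prop :=
  (∀ i ∈ I, ∀ i' ∈ I, f i = f i' → i = i') ∧ (∀ i ∈ I, 1 ≤ (f i).natDegree ∧ (f i).natDegree ≤ D) ∧
    ∀ p : ℕ, p.Prime → ∀ u : ℤ, ∃ w : ℤ, ∀ i ∈ I, ¬ (p : ℤ) ∣ (f i).eval u + w

/-- for all `j`, with `k = s j + q j * m`, the number `k ^ 2 + 3 k + c j` is prime, and all the `f i (k) + c j`,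
`i ∈ P`, have at most two prime factors -/
def Good {J : ℕ} (f : ℕ → ℤ[X]) (s q : Fin J → ℕ) (P : Finset ℕ) (c : Fin J → ℕ) (m : ℕ) : Prop :=
  ∀ j, ((s j + q j * m) ^ 2 + 3 * (s j + q j * m) + c j).Prime ∧
    ∀ i ∈ P, AlmostPrime ((f i).eval ((s j : ℤ) + q j * m) + c j)

open Classical in
/-- for `r` of the polynomials, different from `f i₀`, at least `B` of the `m ∈ 𝒬` are good -/
def Many {J : ℕ} (I : Finset ℕ) (i₀ : ℕ) (f : ℕ → ℤ[X]) (s q : Fin J → ℕ) (r : ℕ) (𝒬 : Finset ℕ) (B : ℝ)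
    (c : Fin J → ℕ) : Prop :=
  ∃ P ⊆ I.erase i₀, P.card = r ∧ B ≤ (((𝒬.filter (fun m => Good f s q P c m)).card : ℕ) : ℝ)

open Classical in
/-- **Primes `k ^ 2 + 3 k + c` with almost prime companions, `k = s j + q j * m`, `m` in an arbitrary dense set.** -/
theorem result (J r : ℕ) (hJ : 1 ≤ J) : ∃ K : ℕ, ∀ D : ℕ, ∃ A : ℕ, ∀ (I : Finset ℕ) (f : ℕ → ℤ[X]), K ≤ I.card →
    Admissible I f D → ∀ i₀ ∈ I, f i₀ = X ^ 2 + 3 * X → ∀ d G : ℝ, 0 < d →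
    ∃ κ : ℝ, 0 < κ ∧ ∃ M₀ : ℕ, ∀ M : ℕ, M₀ ≤ M → ∀ Y : ℕ, Real.log M ^ A ≤ Y → ∀ s q : Fin J → ℕ,
      (∀ j, 1 ≤ q j ∧ (q j : ℝ) ≤ G * (q j).totient ∧
        ∀ i ∈ I, ((s j : ℝ) + q j * Y) ^ (f i).natDegree ≤ κ * M) →
      ∀ 𝒬 ⊆ Icc 1 Y, d * Y ≤ (𝒬.card : ℝ) →
      κ * (M : ℝ) ^ J ≤ (({c ∈ Fintype.piFinset (fun _ : Fin J => Icc 1 M) |
        Many I i₀ f s q r 𝒬 (Y / Real.log M ^ A) c}.card : ℕ) : ℝ) := by
  obtain ⟨K, h0⟩ := Pool.Agent.Helper74.FB.denseTQ J r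
  refine ⟨K, fun D => ?_⟩
  obtain ⟨B, h1⟩ := h0 D
  refine ⟨B, fun I f hI hadm i₀ hi₀ hf₀ d G hd => ?_⟩
  obtain ⟨hdist, hdeg, hcov⟩ := hadm
  obtain ⟨κ, hκ, X₀, h2⟩ := h1 I hI (fun _ i => f i) (fun _ i hi => (hdeg i hi).1) (fun _ i hi => (hdeg i hi).2)
    (fun _ i hi i' hi' heq => hdist i hi i' hi' heq) (by
      intro p hp u j
      obtain ⟨w, hw⟩ := hcov p hp u
      refine ⟨w, fun i hi hd => hw i hi ?_⟩
      rwa [add_comm] at hd) i₀ hi₀ d hd G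
  refine ⟨κ, hκ, X₀ + 3, fun M hM Y hY1 s q hsq 𝒬 h𝒬 hcard => ?_⟩
  have hMr : (3 : ℝ) ≤ M := by exact_mod_cast (by omega : 3 ≤ M)
  have hlog : 0 < Real.log M := Real.log_pos (by linarith)
  have hY1' : (1 : ℝ) ≤ Y := by
    have h0 : (0 : ℝ) < Y := lt_of_lt_of_le (by positivity) hY1
    have : 0 < Y := by exact_mod_cast h0
    exact_mod_cast this
  have hT : ∀ j, (Y : ℝ) ≤ (s j : ℝ) + q j * Y := by
    intro j
    have h4 : (1 : ℝ) ≤ q j := by exact_mod_cast (hsq j).1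
    have h5 : (0 : ℝ) ≤ s j := Nat.cast_nonneg _
    nlinarith
  have hYκ : (Y : ℝ) ≤ κ * M := by
    have h4 := hT ⟨0, hJ⟩
    have h5 : (1 : ℝ) ≤ (s ⟨0, hJ⟩ : ℝ) + q ⟨0, hJ⟩ * Y := hY1'.trans h4
    exact h4.trans ((le_self_pow₀ h5 (by have := (hdeg i₀ hi₀).1; omega)).trans ((hsq ⟨0, hJ⟩).2.2 i₀ hi₀))
  have hGG : ∀ j, Pool.Agent.Erdos456.GG (q j) ≤ G := by
    intro j
    obtain ⟨h3, h4, -⟩ := hsq j
    have hφ : (0 : ℝ) < (q j).totient := by exact_mod_cast Nat.totient_pos.2 (by omega)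
    unfold Pool.Agent.Erdos456.GG
    rw [div_le_iff₀ hφ]
    exact h4
  refine (h2 M (by omega) Y hY1 hYκ q s (fun j => ⟨(hsq j).1, hGG j⟩)
    (fun j i hi => (hsq j).2.2 i hi) 𝒬 h𝒬 hcard).trans ?_
  rw [Nat.cast_le]
  apply card_le_card
  intro c hc
  obtain ⟨hc1, -, P, hP, hPc, hcl⟩ := mem_filter.1 hc
  refine mem_filter.2 ⟨hc1, P, hP, hPc, hcl.trans ?_⟩
  rw [Nat.cast_le]
  apply card_le_card
  intro m hm
  obtain ⟨hm1, hm2⟩ := mem_filter.1 hm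
  refine mem_filter.2 ⟨hm1, fun j => ?_⟩
  obtain ⟨⟨t, ht, ht2⟩, h3⟩ := hm2 j
  have ecomm : (q j : ℤ) * m + s j = (s j : ℤ) + q j * m := add_comm _ _
  refine ⟨?_, fun i hi => ?_⟩
  · have e1 : ((s j + q j * m) ^ 2 + 3 * (s j + q j * m) + c j : ℕ) = t := by
      have e2 : (((s j + q j * m) ^ 2 + 3 * (s j + q j * m) + c j : ℕ) : ℤ) = t := by
        rw [ht2, hf₀]
        simp
        ring
      exact_mod_cast e2
    rw [e1]
    exact ht
  · obtain ⟨z, hz, hz2, hz3⟩ := h3 i hi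
    exact ⟨z, hz, by rw [hz2, ecomm, add_comm], hz3⟩

end Pool.Agent.Results.MP_d57abb_nt.PrimeValuesInDenseSets
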