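import Mathlib
import Pool.Agent.Helper74.FB.DenseT

/-! # Several quadratic polynomials and several constants, simultaneously prime at arguments in sparse progressions

`(b i, e i)`, `i ∈ I`, are sufficiently many pairs of integers, for instance with `b i = 3`, and `s j + q j * m`,
`j < J`, are progressions with arbitrary starts `s j` and differences `q j ≤ G φ(q j)`. `𝒬 ⊆ [1, Y]` is any set of at
least `d Y` integers. For a positive proportion of the `J`-tuples of constants `c j ≤ M` there are `r` of the pairs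
such that for many `m ∈ 𝒬` all the `r J` numbers `k ^ 2 + b i k + e i + c j` with `k = s j + q j * m` are primes. -/

set_option autoImplicit false

namespace Pool.Agent.Results.MP_d57abb_nt.SimultaneousPrimesInDenseSets

open Finset

/-- the integer `z` is a positive prime -/
def IsPrime (z : ℤ) : Prop := ∃ q : ℕ, q.Prime ∧ (q : ℤ) = z

/-- the pairs `(b i, e i)`, `i ∈ I`, are distinct, and for every prime `p` and every integer `u` the values
`u ^ 2 + b i u + e i` miss a class modulo `p` -/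
def Admissible (I : Finset ℕ) (b e : ℕ → ℤ) : Prop :=
  (∀ i ∈ I, ∀ i' ∈ I, b i = b i' → e i = e i' → i = i') ∧
    ∀ p : ℕ, p.Prime → ∀ u : ℤ, ∃ w : ℤ, ∀ i ∈ I, ¬ (p : ℤ) ∣ u ^ 2 + b i * u + e i + w

open Classical in
/-- for `r` of the pairs there are at least `B` of the `m ∈ 𝒬` such that all the `k ^ 2 + b i k + e i + c j`,
`k = s j + q j * m`, are primes -/
def Many {J : ℕ} (I : Finset ℕ) (b e : ℕ → ℤ) (s q : Fin J → ℕ) (r : ℕ) (𝒬 : Finset ℕ) (B : ℝ) (c : Fin J → ℕ) :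
    Prop :=
  ∃ P ⊆ I, P.card = r ∧ B ≤ (((𝒬.filter (fun m : ℕ => ∀ j, ∀ i ∈ P,
    IsPrime (((s j : ℤ) + q j * m) ^ 2 + b i * ((s j : ℤ) + q j * m) + e i + c j))).card : ℕ) : ℝ)

open Classical in
/-- **Simultaneous primes `k ^ 2 + b i k + e i + c j`, `k = s j + q j * m`, `m` in an arbitrary dense set.** -/
theorem result (J r : ℕ) (hJ : 1 ≤ J) (hr : 1 ≤ r) : ∃ K A : ℕ, ∀ (I : Finset ℕ) (b e : ℕ → ℤ), K ≤ I.card →
    Admissible I b e → ∀ d G : ℝ, 0 < d → ∃ κ : ℝ, 0 < κ ∧ ∃ M₀ : ℕ, ∀ M : ℕ, M₀ ≤ M → ∀ Y : ℕ,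
      Real.log M ^ A ≤ Y → ∀ s q : Fin J → ℕ,
      (∀ j, 1 ≤ q j ∧ (q j : ℝ) ≤ G * (q j).totient ∧ ((s j : ℝ) + q j * Y) ^ 2 ≤ κ * M) →
      ∀ 𝒬 ⊆ Icc 1 Y, d * Y ≤ (𝒬.card : ℝ) →
      κ * (M : ℝ) ^ J ≤ (({c ∈ Fintype.piFinset (fun _ : Fin J => Icc 1 M) |
        Many I b e s q r 𝒬 (Y / Real.log M ^ A) c}.card : ℕ) : ℝ) := by
  obtain ⟨K, h0⟩ := Pool.Agent.Helper74.FB.denseTJ J r hr
  obtain ⟨B, h1⟩ := h0 2
  refine ⟨K, B, fun I b e hI hadm d G hd => ?_⟩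
  obtain ⟨hdist, hcov⟩ := hadm
  obtain ⟨f, hf⟩ : ∃ f : ℕ → Polynomial ℤ, f = fun (i : ℕ) => Polynomial.C (1 : ℤ) * Polynomial.X ^ 2 +
    Polynomial.C (b i) * Polynomial.X + Polynomial.C (e i) := ⟨_, rfl⟩
  have hev : ∀ i, ∀ x : ℤ, (f i).eval x = x ^ 2 + b i * x + e i := by
    intro i x
    rw [hf]
    simp
  have hdeg : ∀ i, (f i).natDegree = 2 := by
    intro i
    rw [hf]
    exact Polynomial.natDegree_quadratic one_ne_zero
  obtain ⟨κ, hκ, X₀, h2⟩ := h1 I hI (fun _ i => f i) (fun _ i hi => by rw [hdeg]; norm_num)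
    (fun _ i hi => by rw [hdeg])
    (fun _ i hi i' hi' heq => by
      have e0 : (f i).eval 0 = (f i').eval 0 := by rw [heq]
      have e1 : (f i).eval 1 = (f i').eval 1 := by rw [heq]
      rw [hev, hev] at e0 e1
      exact hdist i hi i' hi' (by linarith) (by linarith)) (by
      intro p hp u j
      obtain ⟨w, hw⟩ := hcov p hp u
      refine ⟨w, fun i hi hd => hw i hi ?_⟩
      rw [hev, add_comm] at hd
      exact hd) d hd G
  refine ⟨κ, hκ, X₀ + 3, fun M hM Y hY1 s q hsq 𝒬 h𝒬 hcard => ?_⟩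
  have hMr : (3 : ℝ) ≤ M := by exact_mod_cast (by omega : 3 ≤ M)
  have hlog : 0 < Real.log M := Real.log_pos (by linarith)
  have hY1' : (1 : ℝ) ≤ Y := by
    have h0 : (0 : ℝ) < Y := lt_of_lt_of_le (by positivity) hY1
    have : 0 < Y := by exact_mod_cast h0
    exact_mod_cast this
  have hT : ∀ j, (Y : ℝ) ≤ (s j : ℝ) + q j * Y := by
    intro j
    have h4 : (1 : ℝ) ≤ q j := by exact_mod_cast (hsq j).1
    have h5 : (0 : ℝ) ≤ s j := Nat.cast_nonneg _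
    nlinarith
  have hYκ : (Y : ℝ) ≤ κ * M := by
    have h4 := hT ⟨0, hJ⟩
    have h5 : (1 : ℝ) ≤ (s ⟨0, hJ⟩ : ℝ) + q ⟨0, hJ⟩ * Y := hY1'.trans h4
    exact h4.trans ((le_self_pow₀ h5 (by norm_num)).trans (hsq ⟨0, hJ⟩).2.2)
  have hGG : ∀ j, Pool.Agent.Erdos456.GG (q j) ≤ G := by
    intro j
    obtain ⟨h3, h4, -⟩ := hsq j
    have hφ : (0 : ℝ) < (q j).totient := by exact_mod_cast Nat.totient_pos.2 (by omega)
    unfold Pool.Agent.Erdos456.GG
    rw [div_le_iff₀ hφ]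
    exact h4
  refine (h2 M (by omega) Y hY1 hYκ q s (fun j => ⟨(hsq j).1, hGG j⟩)
    (fun j i hi => by rw [hdeg]; exact (hsq j).2.2) 𝒬 h𝒬 hcard).trans ?_
  rw [Nat.cast_le]
  apply card_le_card
  intro c hc
  obtain ⟨hc1, -, P, hP, hPc, hcl⟩ := mem_filter.1 hc
  refine mem_filter.2 ⟨hc1, P, hP, hPc, hcl.trans ?_⟩
  rw [Nat.cast_le]
  apply card_le_card
  intro k hk
  obtain ⟨hk1, hk2⟩ := mem_filter.1 hk
  refine mem_filter.2 ⟨hk1, fun j i hi => ?_⟩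
  obtain ⟨t, ht, ht2⟩ := hk2 j i hi
  exact ⟨t, ht, by rw [ht2, hev]; ring⟩

end Pool.Agent.Results.MP_d57abb_nt.SimultaneousPrimesInDenseSets
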